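import Pool.Agent.Helper16.Asym

namespace Pool.Agent.Helper41.INR

open Matrix Finset Pool.Agent.Helper16.Inertia

section Neg

variable {V : Type*} [Fintype V] [DecidableEq V]

/-- If the form is negative on the kernel of a linear map with values in `K → ℝ`, then
there are at least `|V| - |K|` negative eigenvalues. -/
theorem card_le_neg_add (A : Matrix V V ℝ) (hA : A.IsHermitian) {K : Type*} [Fintype K]
    (L : (V → ℝ) →ₗ[ℝ] (K → ℝ))
    (h : ∀ v, L v = 0 → v ≠ 0 → v ⬝ᵥ A *ᵥ v < 0) :
    Fintype.card V ≤ (univ.filter fun i => hA.eigenvalues i < 0).card + Fintype.card K := by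
  classical
  let W : (V → ℝ) →ₗ[ℝ] (V → ℝ) :=
    (star (hA.eigenvectorUnitary : Matrix V V ℝ)).mulVecLin
  let R : (V → ℝ) →ₗ[ℝ] ({i // hA.eigenvalues i < 0} → ℝ) :=
    (LinearMap.funLeft ℝ ℝ (fun i : {i // hA.eigenvalues i < 0} => (i : V))).comp W
  let Φ : (V → ℝ) →ₗ[ℝ] ({i // hA.eigenvalues i < 0} → ℝ) × (K → ℝ) := R.prod L
  have hinj : Function.Injective Φ := by
    rw [← LinearMap.ker_eq_bot, LinearMap.ker_eq_bot']
    intro v hv
    by_contra hne
    have hR : R v = 0 := congrArg Prod.fst hv
    have hL : L v = 0 := congrArg Prod.snd hv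
    have hneg := h v hL hne
    rw [quad_eq_sum A hA v] at hneg
    have hle : 0 ≤ ∑ i, hA.eigenvalues i *
        ((star (hA.eigenvectorUnitary : Matrix V V ℝ) *ᵥ v) i) ^ 2 := by
      refine Finset.sum_nonneg fun i _ => ?_
      by_cases hi : hA.eigenvalues i < 0
      · have : (star (hA.eigenvectorUnitary : Matrix V V ℝ) *ᵥ v) i = 0 :=
          congrFun hR ⟨i, hi⟩
        rw [this]; simp
      · exact mul_nonneg (not_lt.mp hi) (sq_nonneg _)
    linarith
  have hfin := LinearMap.finrank_le_finrank_of_injective hinj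
  rw [Module.finrank_prod, Module.finrank_fintype_fun_eq_card, Module.finrank_fintype_fun_eq_card,
    Module.finrank_fintype_fun_eq_card, Fintype.card_subtype] at hfin
  exact hfin

theorem pos_add_neg_le (A : Matrix V V ℝ) (hA : A.IsHermitian) :
    (univ.filter fun i => 0 < hA.eigenvalues i).card +
      (univ.filter fun i => hA.eigenvalues i < 0).card ≤ Fintype.card V := by
  classical
  rw [← Finset.card_union_of_disjoint]
  · exact Finset.card_le_univ _
  · rw [Finset.disjoint_filter]
    intro i _ h1 h2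
    linarith

end Neg

/-- The pairs of elements of `Fin m`. -/
abbrev Pr (m : ℕ) : Type := {e : Finset (Fin m) // e.card = 2}

/-- Vertices: pairs and single elements. Two pairs are adjacent when they are disjoint, a
pair and a single element when the element lies in the pair, two distinct single elements
always. -/
def gr (m : ℕ) : SimpleGraph (Pr m ⊕ Fin m) where
  Adj
    | Sum.inl e, Sum.inl e' => Disjoint e.1 e'.1
    | Sum.inl e, Sum.inr c => c ∈ e.1
    | Sum.inr c, Sum.inl e => c ∈ e.1
    | Sum.inr c, Sum.inr c' => c ≠ c'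
  symm := ⟨by
    rintro (e | c) (e' | c') h
    · exact Disjoint.symm h
    · exact h
    · exact h
    · exact Ne.symm h⟩
  loopless := ⟨by
    rintro (e | c) h
    · have h1 : e.1 = ∅ := disjoint_self.1 h
      have h2 := e.2
      rw [h1] at h2
      simp at h2
    · exact h rfl⟩

/-- Incidence of an element and a pair. -/
def inc {m : ℕ} (e : Pr m) (c : Fin m) : ℝ := if c ∈ e.1 then 1 else 0

theorem sum_inc {m : ℕ} (e : Pr m) : ∑ c, inc e c = 2 := by
  unfold inc
  rw [Finset.sum_ite_mem, Finset.univ_inter, Finset.sum_const, e.2]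
  norm_num

theorem sum_inc_mul {m : ℕ} (e e' : Pr m) :
    ∑ c, inc e c * inc e' c = ((e.1 ∩ e'.1).card : ℝ) := by
  unfold inc
  have : ∀ c : Fin m, (if c ∈ e.1 then (1 : ℝ) else 0) * (if c ∈ e'.1 then 1 else 0) =
      if c ∈ e.1 ∩ e'.1 then 1 else 0 := by
    intro c
    by_cases h1 : c ∈ e.1 <;> by_cases h2 : c ∈ e'.1 <;> simp [h1, h2]
  simp_rw [this]
  rw [Finset.sum_ite_mem, Finset.univ_inter, Finset.sum_const]
  simp

theorem adj_pair {m : ℕ} (e e' : Pr m) [Decidable (Disjoint e.1 e'.1)] :
    (if Disjoint e.1 e'.1 then (1 : ℝ) else 0) =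
      1 - ∑ c, inc e c * inc e' c + if e = e' then 1 else 0 := by
  rw [sum_inc_mul]
  by_cases h : e = e'
  · subst h
    have h1 : ¬ Disjoint e.1 e.1 := by
      intro hd
      have h1 : e.1 = ∅ := disjoint_self.1 hd
      have h2 := e.2
      rw [h1] at h2
      simp at h2
    rw [if_neg h1, if_pos rfl, Finset.inter_self, e.2]
    norm_num
  · rw [if_neg h]
    by_cases hd : Disjoint e.1 e'.1
    · rw [if_pos hd, Finset.disjoint_iff_inter_eq_empty.1 hd]
      simp
    · rw [if_neg hd]
      have h0 : 0 < (e.1 ∩ e'.1).card := by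
        rw [Finset.card_pos, ← Finset.not_disjoint_iff_nonempty_inter]
        exact hd
      have h2 : (e.1 ∩ e'.1).card < 2 := by
        by_contra hc
        have hle : (e.1 ∩ e'.1).card ≤ 2 := by
          calc (e.1 ∩ e'.1).card ≤ e.1.card := Finset.card_le_card Finset.inter_subset_left
            _ = 2 := e.2
        have heq : (e.1 ∩ e'.1).card = 2 := by omega
        have h3 : e.1 ∩ e'.1 = e.1 :=
          Finset.eq_of_subset_of_card_le Finset.inter_subset_left (by rw [heq, e.2])
        have h4 : e.1 ∩ e'.1 = e'.1 :=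
          Finset.eq_of_subset_of_card_le Finset.inter_subset_right (by rw [heq, e'.2])
        exact h (Subtype.ext (h3.symm.trans h4))
      have h1 : (e.1 ∩ e'.1).card = 1 := by omega
      rw [h1]
      norm_num

end Pool.Agent.Helper41.INR
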