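import Pool.Agent.Helper41.INR.Abs

namespace Pool.Agent.Helper41.INR

open Matrix Finset Pool.Agent.Helper16.Inertia

/-- Sum over the pairs through an element. -/
noncomputable def dd {m : ℕ} (f : Pr m → ℝ) (c : Fin m) : ℝ := ∑ e, inc e c * f e

theorem sum_dd {m : ℕ} (f : Pr m → ℝ) : ∑ c, dd f c = 2 * ∑ e, f e := by
  unfold dd
  rw [Finset.sum_comm, Finset.mul_sum]
  refine Finset.sum_congr rfl fun e _ => ?_
  rw [← Finset.sum_mul, sum_inc]

theorem quad {m : ℕ} [DecidableRel (gr m).Adj] (v : Pr m ⊕ Fin m → ℝ) :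
    v ⬝ᵥ (gr m).adjMatrix ℝ *ᵥ v =
      (∑ e, v (Sum.inl e)) ^ 2 - ∑ c, dd (fun e => v (Sum.inl e)) c ^ 2 +
        ∑ e, v (Sum.inl e) ^ 2 + 2 * ∑ c, v (Sum.inr c) * dd (fun e => v (Sum.inl e)) c +
        (∑ c, v (Sum.inr c)) ^ 2 - ∑ c, v (Sum.inr c) ^ 2 := by
  classical
  set f : Pr m → ℝ := fun e => v (Sum.inl e) with hf
  set g : Fin m → ℝ := fun c => v (Sum.inr c) with hg
  have hll : ∀ e e', (gr m).adjMatrix ℝ (Sum.inl e) (Sum.inl e') =
      1 - ∑ c, inc e c * inc e' c + if e = e' then 1 else 0 := by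
    intro e e'
    rw [← adj_pair, SimpleGraph.adjMatrix_apply]
    by_cases h : Disjoint e.1 e'.1
    · have h' : (gr m).Adj (Sum.inl e) (Sum.inl e') := h
      rw [if_pos h, if_pos h']
    · have h' : ¬ (gr m).Adj (Sum.inl e) (Sum.inl e') := h
      rw [if_neg h, if_neg h']
  have hlr : ∀ e c, (gr m).adjMatrix ℝ (Sum.inl e) (Sum.inr c) = inc e c := by
    intro e c
    rw [SimpleGraph.adjMatrix_apply]
    unfold inc
    by_cases h : c ∈ e.1
    · have h' : (gr m).Adj (Sum.inl e) (Sum.inr c) := h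
      rw [if_pos h, if_pos h']
    · have h' : ¬ (gr m).Adj (Sum.inl e) (Sum.inr c) := h
      rw [if_neg h, if_neg h']
  have hrl : ∀ e c, (gr m).adjMatrix ℝ (Sum.inr c) (Sum.inl e) = inc e c := by
    intro e c
    rw [SimpleGraph.adjMatrix_apply]
    unfold inc
    by_cases h : c ∈ e.1
    · have h' : (gr m).Adj (Sum.inr c) (Sum.inl e) := h
      rw [if_pos h, if_pos h']
    · have h' : ¬ (gr m).Adj (Sum.inr c) (Sum.inl e) := h
      rw [if_neg h, if_neg h']
  have hrr : ∀ c c' : Fin m, (gr m).adjMatrix ℝ (Sum.inr c) (Sum.inr c') =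
      1 - if c = c' then 1 else 0 := by
    intro c c'
    rw [SimpleGraph.adjMatrix_apply]
    by_cases h : c = c'
    · have h' : ¬ (gr m).Adj (Sum.inr c) (Sum.inr c') := fun hn => hn h
      rw [if_pos h, if_neg h']
      norm_num
    · have h' : (gr m).Adj (Sum.inr c) (Sum.inr c') := h
      rw [if_neg h, if_pos h']
      norm_num
  have h1 : ∑ e, ∑ e', f e * ((1 - ∑ c, inc e c * inc e' c + if e = e' then 1 else 0) * f e') =
      (∑ e, f e) ^ 2 - ∑ c, dd f c ^ 2 + ∑ e, f e ^ 2 := by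
    have a1 : ∑ e, ∑ e', f e * f e' = (∑ e, f e) ^ 2 := by
      rw [sq, Finset.sum_mul_sum]
    have a2 : ∑ e, ∑ e', ∑ c, f e * (inc e c * inc e' c) * f e' = ∑ c, dd f c ^ 2 := by
      unfold dd
      have : ∀ c : Fin m, (∑ e, inc e c * f e) ^ 2 =
          ∑ e, ∑ e', f e * (inc e c * inc e' c) * f e' := by
        intro c
        rw [sq, Finset.sum_mul_sum]
        refine Finset.sum_congr rfl fun e _ => Finset.sum_congr rfl fun e' _ => ?_
        ring
      simp_rw [this]
      calc ∑ e, ∑ e', ∑ c, f e * (inc e c * inc e' c) * f e'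
          = ∑ e, ∑ c, ∑ e', f e * (inc e c * inc e' c) * f e' := by
            refine Finset.sum_congr rfl fun e _ => ?_
            rw [Finset.sum_comm]
        _ = _ := by rw [Finset.sum_comm]
    have a3 : ∑ e, ∑ e', f e * (if e = e' then (1 : ℝ) else 0) * f e' = ∑ e, f e ^ 2 := by
      refine Finset.sum_congr rfl fun e _ => ?_
      rw [Finset.sum_eq_single e]
      · rw [if_pos rfl]; ring
      · intro b _ hb
        rw [if_neg (Ne.symm hb)]; ring
      · intro h; exact absurd (mem_univ _) h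
    rw [← a1, ← a2, ← a3, ← Finset.sum_sub_distrib, ← Finset.sum_add_distrib]
    refine Finset.sum_congr rfl fun e _ => ?_
    rw [← Finset.sum_sub_distrib, ← Finset.sum_add_distrib]
    refine Finset.sum_congr rfl fun e' _ => ?_
    have : ∑ c, f e * (inc e c * inc e' c) * f e' =
        f e * (∑ c, inc e c * inc e' c) * f e' := by
      rw [Finset.mul_sum, Finset.sum_mul]
    rw [this]
    ring
  have h2 : ∑ c, ∑ c', g c * ((1 - if c = c' then (1 : ℝ) else 0) * g c') =
      (∑ c, g c) ^ 2 - ∑ c, g c ^ 2 := by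
    have a1 : ∑ c, ∑ c', g c * g c' = (∑ c, g c) ^ 2 := by
      rw [sq, Finset.sum_mul_sum]
    have a3 : ∑ c, ∑ c', g c * (if c = c' then (1 : ℝ) else 0) * g c' = ∑ c, g c ^ 2 := by
      refine Finset.sum_congr rfl fun e _ => ?_
      rw [Finset.sum_eq_single e]
      · rw [if_pos rfl]; ring
      · intro b _ hb
        rw [if_neg (Ne.symm hb)]; ring
      · intro h; exact absurd (mem_univ _) h
    rw [← a1, ← a3, ← Finset.sum_sub_distrib]
    refine Finset.sum_congr rfl fun e _ => ?_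
    rw [← Finset.sum_sub_distrib]
    refine Finset.sum_congr rfl fun e' _ => ?_
    ring
  have h3 : ∑ e, ∑ c, f e * (inc e c * g c) = ∑ c, g c * dd f c := by
    unfold dd
    rw [Finset.sum_comm]
    refine Finset.sum_congr rfl fun c _ => ?_
    rw [Finset.mul_sum]
    refine Finset.sum_congr rfl fun e _ => ?_
    ring
  have h4 : ∑ c, ∑ e, g c * (inc e c * f e) = ∑ c, g c * dd f c := by
    unfold dd
    refine Finset.sum_congr rfl fun c _ => ?_
    rw [Finset.mul_sum]
  have hmain : v ⬝ᵥ (gr m).adjMatrix ℝ *ᵥ v =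
      (∑ e, ∑ e', f e * ((1 - ∑ c, inc e c * inc e' c + if e = e' then 1 else 0) * f e')) +
        (∑ e, ∑ c, f e * (inc e c * g c)) + ((∑ c, ∑ e, g c * (inc e c * f e)) +
        ∑ c, ∑ c', g c * ((1 - if c = c' then (1 : ℝ) else 0) * g c')) := by
    simp only [dotProduct, mulVec]
    rw [Fintype.sum_sum_type]
    congr 1
    · rw [← Finset.sum_add_distrib]
      refine Finset.sum_congr rfl fun e _ => ?_
      rw [Fintype.sum_sum_type, mul_add, Finset.mul_sum, Finset.mul_sum]
      congr 1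
      · refine Finset.sum_congr rfl fun e' _ => ?_
        rw [hll]
      · refine Finset.sum_congr rfl fun c _ => ?_
        rw [hlr]
    · rw [← Finset.sum_add_distrib]
      refine Finset.sum_congr rfl fun c _ => ?_
      rw [Fintype.sum_sum_type, mul_add, Finset.mul_sum, Finset.mul_sum]
      congr 1
      · refine Finset.sum_congr rfl fun e _ => ?_
        rw [hrl]
      · refine Finset.sum_congr rfl fun c' _ => ?_
        rw [hrr]
  rw [hmain, h1, h2, h3, h4]
  ring

/-- The linear map whose kernel is the positive subspace. -/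
noncomputable def Lp (k : ℕ) : (Pr (k + 1) ⊕ Fin (k + 1) → ℝ) →ₗ[ℝ] (Fin k → ℝ) where
  toFun v i := (dd (fun e => v (Sum.inl e)) i.succ - v (Sum.inr i.succ)) -
    (dd (fun e => v (Sum.inl e)) 0 - v (Sum.inr 0))
  map_add' v w := by
    funext i
    simp only [dd, Pi.add_apply, mul_add, Finset.sum_add_distrib]
    ring
  map_smul' r v := by
    funext i
    simp only [dd, Pi.smul_apply, smul_eq_mul, RingHom.id_apply]
    have : ∀ c : Fin (k + 1), ∑ e, inc e c * (r * v (Sum.inl e)) =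
        r * ∑ e, inc e c * v (Sum.inl e) := by
      intro c
      rw [Finset.mul_sum]
      refine Finset.sum_congr rfl fun e _ => ?_
      ring
    rw [this, this]
    ring

theorem pos_on_ker (k : ℕ) (hk : 4 ≤ k) [DecidableRel (gr (k + 1)).Adj]
    (v : Pr (k + 1) ⊕ Fin (k + 1) → ℝ) (hL : Lp k v = 0) (hv : v ≠ 0) :
    0 < v ⬝ᵥ (gr (k + 1)).adjMatrix ℝ *ᵥ v := by
  rw [quad]
  set f : Pr (k + 1) → ℝ := fun e => v (Sum.inl e) with hf
  set g : Fin (k + 1) → ℝ := fun c => v (Sum.inr c) with hg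
  set t : ℝ := dd f 0 - g 0 with ht
  have hall : ∀ c, dd f c = g c + t := by
    intro c
    refine Fin.cases ?_ (fun i => ?_) c
    · rw [ht]; ring
    · have h := congrFun hL i
      have h' : (dd f i.succ - g i.succ) - (dd f 0 - g 0) = 0 := h
      rw [← ht] at h'
      linarith
  set s : ℝ := ∑ e, f e with hs
  set G : ℝ := ∑ c, g c with hG
  have hsum : 2 * s = G + ((k : ℝ) + 1) * t := by
    have h1 := sum_dd f
    simp_rw [hall] at h1
    rw [Finset.sum_add_distrib, Finset.sum_const, Finset.card_univ, Fintype.card_fin,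
      nsmul_eq_mul] at h1
    push_cast at h1
    linarith
  have e1 : ∑ c, dd f c ^ 2 = ∑ c, g c ^ 2 + 2 * t * G + ((k : ℝ) + 1) * t ^ 2 := by
    simp_rw [hall]
    have : ∀ c, (g c + t) ^ 2 = g c ^ 2 + 2 * t * g c + t ^ 2 := fun c => by ring
    simp_rw [this]
    rw [Finset.sum_add_distrib, Finset.sum_add_distrib, ← Finset.mul_sum, Finset.sum_const,
      Finset.card_univ, Fintype.card_fin, nsmul_eq_mul]
    push_cast
    ring
  have e2 : ∑ c, g c * dd f c = ∑ c, g c ^ 2 + t * G := by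
    simp_rw [hall]
    have : ∀ c, g c * (g c + t) = g c ^ 2 + t * g c := fun c => by ring
    simp_rw [this]
    rw [Finset.sum_add_distrib, ← Finset.mul_sum]
  have e3 : ∀ c, v (Sum.inr c) = g c := fun c => rfl
  simp_rw [e3]
  rw [e1, e2]
  have hk' : (4 : ℝ) ≤ k := by exact_mod_cast hk
  have hF : 0 ≤ ∑ e, f e ^ 2 := Finset.sum_nonneg fun e _ => sq_nonneg _
  have key : s ^ 2 - (∑ c, g c ^ 2 + 2 * t * G + ((k : ℝ) + 1) * t ^ 2) + ∑ e, f e ^ 2 +
      2 * (∑ c, g c ^ 2 + t * G) + G ^ 2 - ∑ c, g c ^ 2 =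
      s ^ 2 + G ^ 2 - ((k : ℝ) + 1) * t ^ 2 + ∑ e, f e ^ 2 := by ring
  have hgoal : 0 < s ^ 2 + G ^ 2 - ((k : ℝ) + 1) * t ^ 2 + ∑ e, f e ^ 2 := by
    by_cases hf0 : f = 0
    · have hs0 : s = 0 := by rw [hs, hf0]; simp
      have hd0 : ∀ c, dd f c = 0 := by
        intro c
        unfold dd
        rw [hf0]; simp
      have hgc : ∀ c, g c = -t := by
        intro c
        have := hall c
        rw [hd0] at this
        linarith
      have ht0 : t ≠ 0 := by
        intro h0
        apply hv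
        funext x
        rcases x with e | c
        · exact congrFun hf0 e
        · have := hgc c
          rw [h0, neg_zero] at this
          exact this
      have hGt : G = -(((k : ℝ) + 1) * t) := by
        rw [hs0] at hsum
        linarith
      rw [hs0, hGt]
      have h5 : 0 < t ^ 2 := by positivity
      have h6 : 0 < ((k : ℝ) + 1) * (k : ℝ) := by positivity
      have h7 : (0 : ℝ) ^ 2 + (-(((k : ℝ) + 1) * t)) ^ 2 - ((k : ℝ) + 1) * t ^ 2 =
          (((k : ℝ) + 1) * (k : ℝ)) * t ^ 2 := by ring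
      have h8 : 0 < (((k : ℝ) + 1) * (k : ℝ)) * t ^ 2 := mul_pos h6 h5
      linarith
    · have hFpos : 0 < ∑ e, f e ^ 2 := by
        obtain ⟨e, he⟩ : ∃ e, f e ≠ 0 := by
          by_contra h
          push Not at h
          exact hf0 (funext h)
        refine Finset.sum_pos' (fun e _ => sq_nonneg _) ⟨e, mem_univ _, ?_⟩
        positivity
      have hq : 0 ≤ s ^ 2 + G ^ 2 - ((k : ℝ) + 1) * t ^ 2 := by
        have h9 : ((k : ℝ) + 1) * (s ^ 2 + G ^ 2 - ((k : ℝ) + 1) * t ^ 2) =
            ((k : ℝ) - 3) * s ^ 2 + 4 * s * G + (k : ℝ) * G ^ 2 := by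
          have h10 : ((k : ℝ) + 1) * t = 2 * s - G := by linarith
          have h11 : (((k : ℝ) + 1) * t) ^ 2 = (2 * s - G) ^ 2 := by rw [h10]
          nlinarith
        have h12 : 0 ≤ ((k : ℝ) - 3) * s ^ 2 + 4 * s * G + (k : ℝ) * G ^ 2 := by
          nlinarith [sq_nonneg (s + 2 * G), mul_nonneg (by linarith : (0 : ℝ) ≤ (k : ℝ) - 4)
            (sq_nonneg s), mul_nonneg (by linarith : (0 : ℝ) ≤ (k : ℝ) - 4) (sq_nonneg G)]
        have h13 : (0 : ℝ) < (k : ℝ) + 1 := by linarith
        by_contra hneg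
        push Not at hneg
        have := mul_neg_of_pos_of_neg h13 hneg
        linarith
      linarith
  linarith

/-- The linear map whose kernel is the negative subspace. -/
noncomputable def Ln (m : ℕ) : (Pr m ⊕ Fin m → ℝ) →ₗ[ℝ] (Pr m ⊕ Unit → ℝ) where
  toFun v x := Sum.elim (fun e => v (Sum.inl e)) (fun _ => ∑ c, v (Sum.inr c)) x
  map_add' v w := by
    funext x
    rcases x with e | u
    · simp
    · simp [Finset.sum_add_distrib]
  map_smul' r v := by
    funext x
    rcases x with e | u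
    · simp
    · simp [Finset.mul_sum]

theorem neg_on_ker (m : ℕ) [DecidableRel (gr m).Adj]
    (v : Pr m ⊕ Fin m → ℝ) (hL : Ln m v = 0) (hv : v ≠ 0) :
    v ⬝ᵥ (gr m).adjMatrix ℝ *ᵥ v < 0 := by
  have hf : ∀ e, v (Sum.inl e) = 0 := fun e => congrFun hL (Sum.inl e)
  have hG : ∑ c, v (Sum.inr c) = 0 := congrFun hL (Sum.inr ())
  have hq := quad v
  rw [hG] at hq
  have hfz : (fun e => v (Sum.inl e)) = fun _ : Pr m => (0 : ℝ) := funext hf
  have hd : ∀ c, dd (fun _ : Pr m => (0 : ℝ)) c = 0 := by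
    intro c
    unfold dd
    simp
  have hq2 : v ⬝ᵥ (gr m).adjMatrix ℝ *ᵥ v = - ∑ c, v (Sum.inr c) ^ 2 := by
    rw [hq, hfz]
    simp [hd, hf]
  rw [hq2]
  have hpos : 0 < ∑ c, v (Sum.inr c) ^ 2 := by
    obtain ⟨c, hc⟩ : ∃ c, v (Sum.inr c) ≠ 0 := by
      by_contra h
      push Not at h
      apply hv
      funext x
      rcases x with e | c
      · exact hf e
      · exact h c
    refine Finset.sum_pos' (fun e _ => sq_nonneg _) ⟨c, mem_univ _, ?_⟩
    positivity
  linarith

theorem card_pr (m : ℕ) : Fintype.card (Pr m) = m.choose 2 := by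
  rw [Fintype.card_finset_len, Fintype.card_fin]

theorem inertia_gr (k : ℕ) (hk : 4 ≤ k) :
    nMinus (gr (k + 1)) = k ∧ nPlus (gr (k + 1)) = (k + 1).choose 2 + 1 := by
  classical
  have h1 := card_le_pos_add ((gr (k + 1)).adjMatrix ℝ) (adjHerm _) (Lp k)
    (fun v hL hv => pos_on_ker k hk v hL hv)
  have h2 := neg_le_card ((gr (k + 1)).adjMatrix ℝ) (adjHerm _) (Lp k)
    (fun v hL hv => pos_on_ker k hk v hL hv)
  have h3 := card_le_neg_add ((gr (k + 1)).adjMatrix ℝ) (adjHerm _) (Ln (k + 1))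
    (fun v hL hv => neg_on_ker (k + 1) v hL hv)
  have h4 := pos_add_neg_le ((gr (k + 1)).adjMatrix ℝ) (adjHerm _)
  rw [← nPlus_eq] at h1 h4
  rw [← nMinus_eq] at h2 h3 h4
  rw [Fintype.card_sum, Fintype.card_fin, card_pr] at h1 h3 h4
  rw [Fintype.card_fin] at h1 h2
  rw [Fintype.card_sum, card_pr, Fintype.card_unit] at h3
  omega

end Pool.Agent.Helper41.INR
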